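import Pool.Agent.H64.SD.Main
import Pool.Agent.H64.SD.Build

set_option autoImplicit false

/-!
# The star discrepancy of point sets computed by programs of small width, `d ≥ 3`

The least width of near-optimal point sets is a power of `log N`, up to the exponent.

A point set `P ⊆ [0,1)^d` whose points have `m` digits in base `b` is a set of words
`f : Fin d × Fin m → Fin b` (`f (j, i)` is the digit number `i + 1` of the coordinate `j`).  We
consider the point sets which are computed by a *nondeterministic program of width `w`* (a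
nondeterministic oblivious read-once branching program): the `d m` digits are read once each, in an
arbitrary fixed order, with `w` states, with arbitrary transition relations at each time.  The
deterministic programs (ordered decision diagrams) of width `w` are a special case.

For `d = 2` the Hammersley point sets, which have the optimal order `log N / N` of the star
discrepancy, are computed by (deterministic) programs of width `b + 1` (read the digit `i` of `x` and
then the digit `m + 1 - i` of `y`, compare them, and so on), for every `m`.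

Here `d ≥ 3`.  Every point set computed by a program of width `w` has star discrepancy
`≥ N^(-1 + κ) / (2^(d+1) b^3)`, where `κ = κ(w) > 0` is the explicit number `(2 w)^(-101383)`.
Hence point sets with star discrepancy `O((log N)^A / N)` need width `≥ (log N)^c`.

Conversely a width which is a power of `log N` suffices: for every `m = 2^μ` there is a set of
`N ≥ 2^m` points with `m` binary digits, of width at most `2^(3d+4) (log N)^(2d+2)`, with star
discrepancy at most `2^(5d+3) (log N)^(3d+2) / N`.  It is a digital net with band generating matrices: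
the digits are read in the order of the bit reversal of their positions, and the digit read at the
time `τ` is a linear form in the unknowns `v_τ, …, v_(τ+D)`, `D = (2d+2) μ + d + 1`.
-/

namespace Pool.Agent.Results.MP_173de9_an.BoundedWidth

open MeasureTheory

/-- The local discrepancy `∏ x_j - (1/N) Σ_μ χ_{[0,x]}(ξ^μ)` of `N` points `ξ` at `x`. -/
noncomputable def localDisc {N d : ℕ} (ξ : Fin N → Fin d → ℝ) (x : Fin d → ℝ) : ℝ :=
  ∏ j, x j - (1 / (N:ℝ)) * ∑ μ : Fin N, (Set.Icc (0 : Fin d → ℝ) x).indicator (fun _ => (1:ℝ)) (ξ μ)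

/-- `D(ξ,N,d)_q`: the `L_q` norm of the local discrepancy over `[0,1]^d`. -/
noncomputable def starDisc (q : ENNReal) {N d : ℕ} (ξ : Fin N → Fin d → ℝ) : ENNReal :=
  eLpNorm (localDisc ξ) q (volume.restrict (Set.Icc (0 : Fin d → ℝ) 1))

/-- A nondeterministic program of width `w` which reads the `m` digits in base `b` of `d`
coordinates. -/
structure Program (d b m w : ℕ) where
  /-- the order in which the digits are read: at the time `t` the digit `(j, i) = order t`, that is,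
  the digit number `i + 1` of the coordinate `j` -/
  order : Fin (d * m) ≃ Fin d × Fin m
  /-- the transitions at the time `t`: old state, digit, set of the possible new states -/
  step : Fin (d * m) → Fin w → Fin b → Set (Fin w)
  /-- the initial states -/
  start : Set (Fin w)
  /-- the accepting states -/
  accept : Set (Fin w)

/-- the program accepts the digits `f`: there is a sequence of states `q 0, …, q (d m)` which it can
follow -/
def Program.Accepts {d b m w : ℕ} (Q : Program d b m w) (f : Fin d × Fin m → Fin b) : Prop :=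
  ∃ q : ℕ → Fin w, q 0 ∈ Q.start ∧
    (∀ t (h : t < d * m), q (t + 1) ∈ Q.step ⟨t, h⟩ (q t) (f (Q.order ⟨t, h⟩))) ∧
    q (d * m) ∈ Q.accept

/-- the point of `[0,1)^d` with the digits `f` in base `b`: its coordinate `j` is
`Σ_i f(j,i) b^(-i-1)`, `0 ≤ i < m` -/
noncomputable def point {d b m : ℕ} (f : Fin d × Fin m → Fin b) (j : Fin d) : ℝ :=
  ∑ i : Fin m, ((f (j, i)).val : ℝ) / (b : ℝ) ^ (i.val + 1)

/-- `ξ` is the point set computed by `Q`: it lists the points with accepted digits, each once -/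
def Computes {d b m w N : ℕ} (Q : Program d b m w) (ξ : Fin N → Fin d → ℝ) : Prop :=
  ∃ F : Fin N → (Fin d × Fin m → Fin b), Function.Injective F ∧
    (∀ f, Q.Accepts f ↔ f ∈ Set.range F) ∧ ∀ μ, ξ μ = point (F μ)

/-! ### From almost everywhere to everywhere -/

theorem ae_to_all {N d : ℕ} (ξ : Fin N → Fin d → ℝ) (δ : ℝ)
    (h : ∀ᵐ x ∂(volume.restrict (Set.Icc (0 : Fin d → ℝ) 1)), |localDisc ξ x| ≤ δ)
    (x : Fin d → ℝ) (hx0 : ∀ j, 0 ≤ x j) (hx1 : ∀ j, x j < 1) : |localDisc ξ x| ≤ δ := by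
  classical
  rw [ae_restrict_iff' measurableSet_Icc] at h
  refine le_of_forall_pos_le_add fun η hη => ?_
  -- a neighbourhood of `x`
  have hV : ∀ᶠ y in nhds x, (∀ j, y j < 1) ∧ (∀ (μ : Fin N) (j : Fin d), x j < ξ μ j → y j < ξ μ j) ∧
      |∏ j, y j - ∏ j, x j| < η := by
    have hc : ∀ j : Fin d, Continuous fun y : Fin d → ℝ => y j := fun j => continuous_apply j
    refine Filter.Eventually.and ?_ (Filter.Eventually.and ?_ ?_)
    · rw [Filter.eventually_all]
      intro j
      exact (hc j).continuousAt.eventually_lt continuousAt_const (hx1 j)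
    · rw [Filter.eventually_all]
      intro μ
      rw [Filter.eventually_all]
      intro j
      by_cases hj : x j < ξ μ j
      · have := (hc j).continuousAt.eventually_lt (continuousAt_const (y := ξ μ j)) hj
        filter_upwards [this] with y hy _
        exact hy
      · exact Filter.Eventually.of_forall fun y hy => absurd hy hj
    · have hcont : Continuous fun y : Fin d → ℝ => |∏ j, y j - ∏ j, x j| :=
        ((continuous_finsetProd _ fun j _ => hc j).sub continuous_const).abs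
      have h0 : |∏ j, x j - ∏ j, x j| < η := by simpa using hη
      exact hcont.continuousAt.eventually_lt continuousAt_const h0
  rw [Metric.eventually_nhds_iff] at hV
  obtain ⟨ρ, hρ, hV⟩ := hV
  set U : Set (Fin d → ℝ) := Set.pi Set.univ fun j => Set.Ioo (x j) (x j + ρ) with hU
  have hUpos : volume U ≠ 0 := by
    rw [hU, Real.volume_pi_Ioo]
    simp only [add_sub_cancel_left, Finset.prod_const]
    exact pow_ne_zero _ (by simpa using hρ)
  obtain ⟨y, hyU, hy⟩ := ((frequently_ae_mem_iff.2 hUpos).and_eventually h).exists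
  have hyU' : ∀ j, x j < y j ∧ y j < x j + ρ := fun j => (Set.mem_pi.1 hyU) j (Set.mem_univ j)
  have hdist : dist y x < ρ := by
    rw [dist_pi_lt_iff hρ]
    intro j
    rw [Real.dist_eq, abs_lt]
    constructor <;> linarith [(hyU' j).1, (hyU' j).2]
  obtain ⟨h1, h2, h3⟩ := hV hdist
  have hy2 := hy ⟨fun j => (hx0 j).trans (hyU' j).1.le, fun j => (h1 j).le⟩
  have hind : ∀ μ, (Set.Icc (0 : Fin d → ℝ) y).indicator (fun _ => (1:ℝ)) (ξ μ) =
      (Set.Icc (0 : Fin d → ℝ) x).indicator (fun _ => (1:ℝ)) (ξ μ) := by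
    intro μ
    have hiff : ξ μ ∈ Set.Icc (0 : Fin d → ℝ) y ↔ ξ μ ∈ Set.Icc (0 : Fin d → ℝ) x := by
      constructor
      · rintro ⟨ha, hb⟩
        refine ⟨ha, fun j => ?_⟩
        by_contra hc
        push Not at hc
        exact absurd (hb j) (not_le.2 (h2 μ j hc))
      · rintro ⟨ha, hb⟩
        exact ⟨ha, fun j => (hb j).trans (hyU' j).1.le⟩
    by_cases hm : ξ μ ∈ Set.Icc (0 : Fin d → ℝ) x
    · rw [Set.indicator_of_mem hm, Set.indicator_of_mem (hiff.2 hm)]
    · rw [Set.indicator_of_notMem hm, Set.indicator_of_notMem (fun h => hm (hiff.1 h))]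
  have hdiff : localDisc ξ x = localDisc ξ y - (∏ j, y j - ∏ j, x j) := by
    unfold localDisc
    simp only [hind]
    ring
  rw [hdiff]
  have := abs_sub (localDisc ξ y) (∏ j, y j - ∏ j, x j)
  linarith

/-- the pointwise bound on `[0,1)^d` -/
theorem bound_of_starDisc {N d : ℕ} (ξ : Fin N → Fin d → ℝ) (hfin : starDisc ⊤ ξ ≠ ⊤)
    (x : Fin d → ℝ) (hx0 : ∀ j, 0 ≤ x j) (hx1 : ∀ j, x j < 1) :
    |localDisc ξ x| ≤ (starDisc ⊤ ξ).toReal := by
  apply ae_to_all ξ _ _ x hx0 hx1
  have h := enorm_ae_le_eLpNormEssSup (localDisc ξ) (volume.restrict (Set.Icc (0 : Fin d → ℝ) 1))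
  filter_upwards [h] with y hy
  rw [← eLpNorm_exponent_top] at hy
  have h2 : ‖localDisc ξ y‖ₑ ≤ starDisc ⊤ ξ := hy
  rw [← ofReal_norm, Real.norm_eq_abs] at h2
  exact (ENNReal.ofReal_le_iff_le_toReal hfin).1 h2

theorem width_pos {d b m w N : ℕ} (hN : 1 ≤ N) (Q : Program d b m w)
    (ξ : Fin N → Fin d → ℝ) (hξ : Computes Q ξ) : 0 < w := by
  obtain ⟨F, _, hF, _⟩ := hξ
  obtain ⟨q, _⟩ := (hF (F ⟨0, hN⟩)).2 ⟨_, rfl⟩
  exact lt_of_le_of_lt (Nat.zero_le _) (q 0).isLt

/-- the main bound -/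
theorem main {d b m w N : ℕ} (hd : 3 ≤ d) (hb : 2 ≤ b) (hN : 1 ≤ N) (Q : Program d b m w)
    (ξ : Fin N → Fin d → ℝ) (hξ : Computes Q ξ) :
    ENNReal.ofReal ((N : ℝ) ^ ((1 : ℝ) / (2 * w) ^ 101383) / (2 ^ (d + 1) * (b : ℝ) ^ 3 * N)) ≤
      starDisc ⊤ ξ := by
  classical
  rcases eq_or_ne (starDisc ⊤ ξ) ⊤ with htop | hfin
  · rw [htop]; exact le_top
  obtain ⟨e, rfl⟩ : ∃ e, d = e + 3 := ⟨d - 3, by omega⟩
  obtain ⟨F, hFinj, hFacc, hFpt⟩ := hξ
  set A : Finset (Fin (e + 3) × Fin m → Fin b) := Finset.univ.image F with hA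
  have hAcard : A.card = N := by
    rw [hA, Finset.card_image_of_injective _ hFinj, Finset.card_univ, Fintype.card_fin]
  have hAne : A.Nonempty := by rw [← Finset.card_pos]; omega
  have hwpos := width_pos hN Q ξ ⟨F, hFinj, hFacc, hFpt⟩
  have hAW : H64.SD.Width Q.order w A := by
    refine H64.SD.width_of_program Q.order Q.step Q.start Q.accept A (fun f => ?_) hAne
    have h1 : f ∈ A ↔ Q.Accepts f := by
      rw [hFacc f, hA]
      simp
    rw [h1]
    constructor
    · rintro ⟨q, hq0, hq1, hq2⟩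
      exact ⟨q 0, hq0, q ((e + 3) * m), hq2, q, rfl, rfl, fun t ht _ _ => hq1 t ht⟩
    · rintro ⟨q0, hq0, q1, hq1, q, hq2, hq3, hq4⟩
      refine ⟨q, by rw [hq2]; exact hq0, fun t ht => hq4 t ht (Nat.zero_le _) ht, by rw [hq3]; exact hq1⟩
  have hN0 : (0 : ℝ) < N := by exact_mod_cast hN
  have hnb : ∀ x : Fin (e + 3) → ℝ, |H64.SD.nb A x - A.card * ∏ j, x j| = N * |localDisc ξ x| := by
    intro x
    have hNa : (N : ℝ) * |localDisc ξ x| = |-((N : ℝ) * localDisc ξ x)| := by
      rw [abs_neg, abs_mul, abs_of_pos hN0]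
    rw [hNa]
    congr 1
    unfold localDisc H64.SD.nb
    rw [hA, Finset.sum_image (fun a _ b _ h => hFinj h)]
    have : ∀ μ, (Set.Icc (0 : Fin (e + 3) → ℝ) x).indicator (fun _ => (1:ℝ)) (ξ μ) =
        ∏ j, (if H64.SD.pt (F μ) j ≤ x j then (1 : ℝ) else 0) := by
      intro μ
      have hpt : ∀ j, ξ μ j = H64.SD.pt (F μ) j := fun j => by rw [hFpt μ]; rfl
      have hiff : ξ μ ∈ Set.Icc (0 : Fin (e + 3) → ℝ) x ↔ ∀ j, H64.SD.pt (F μ) j ≤ x j := by
        constructor
        · intro h j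
          rw [← hpt j]
          exact h.2 j
        · intro h
          refine ⟨fun j => ?_, fun j => ?_⟩
          · rw [hpt j]; exact H64.SD.pt_nonneg _ _
          · rw [hpt j]; exact h j
      by_cases hx : ∀ j, H64.SD.pt (F μ) j ≤ x j
      · rw [Set.indicator_of_mem (hiff.2 hx), Finset.prod_eq_one]
        intro j _
        rw [if_pos (hx j)]
      · rw [Set.indicator_of_notMem (fun h => hx (hiff.1 h))]
        push Not at hx
        obtain ⟨j, hj⟩ := hx
        symm
        apply Finset.prod_eq_zero (Finset.mem_univ j)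
        rw [if_neg (by linarith)]
    simp only [this]
    rw [← hA, hAcard]
    field_simp
    ring
  have hmain := H64.SD.log_bound e m w b ((e + 3) * m) hb hwpos Q.order A hAW hAne
    (N * (starDisc ⊤ ξ).toReal) (fun x hx0 hx1 => by
      rw [hnb x]
      exact mul_le_mul_of_nonneg_left (bound_of_starDisc ξ hfin x hx0 hx1) hN0.le)
  rw [hAcard] at hmain
  rw [ENNReal.ofReal_le_iff_le_toReal hfin]
  have hb0 : (0 : ℝ) < b := by exact_mod_cast (by omega : 0 < b)
  rw [div_le_iff₀ (by positivity)]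
  calc (N : ℝ) ^ ((1 : ℝ) / (2 * w) ^ 101383) ≤
      2 ^ (e + 4) * (b : ℝ) ^ 3 * (N * (starDisc ⊤ ξ).toReal) := hmain
    _ = _ := by ring

/-- the width of near-optimal programs -/
theorem width {d b : ℕ} (hd : 3 ≤ d) (hb : 2 ≤ b) (C s : ℝ) : ∃ N₀ : ℕ, ∀ N : ℕ, N₀ ≤ N →
    ∀ (m w : ℕ) (Q : Program d b m w) (ξ : Fin N → Fin d → ℝ), Computes Q ξ →
      starDisc ⊤ ξ ≤ ENNReal.ofReal (C * (Real.log N) ^ s / N) →
      (Real.log N) ^ ((1 : ℝ) / 101384) ≤ w := by
  obtain ⟨K, hK⟩ : ∃ K : ℕ, K = 101383 := ⟨_, rfl⟩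
  have hK1 : ((1 : ℝ) / 101384) = 1 / ((K : ℝ) + 1) := by rw [hK]; norm_num
  set c0 : ℝ := 2 ^ (d + 1) * (b : ℝ) ^ 3 with hc0
  have hb0 : (0 : ℝ) < b := by exact_mod_cast (by omega : 0 < b)
  have hc0pos : 0 < c0 := by positivity
  set ε : ℝ := 1 / ((K : ℝ) + 1) with hε
  have hε0 : 0 < ε := by positivity
  -- asymptotics
  have hev : ∀ᶠ L : ℝ in Filter.atTop,
      Real.log (c0 * (|C| + 1)) + |s| * Real.log L < L ^ ε / 2 ^ K ∧ 1 ≤ L := by
    have h1 : Filter.Tendsto (fun L : ℝ => L ^ ε) Filter.atTop Filter.atTop :=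
      tendsto_rpow_atTop hε0
    have h2 : ∀ᶠ L : ℝ in Filter.atTop,
        |Real.log L| ≤ (1 / (4 * (|s| + 1) * 2 ^ K)) * |L ^ ε| := by
      have := (isLittleO_log_rpow_atTop hε0).def
        (c := 1 / (4 * (|s| + 1) * 2 ^ K)) (by positivity)
      simpa [Real.norm_eq_abs] using this
    have h3 := h1.eventually_gt_atTop (4 * 2 ^ K * |Real.log (c0 * (|C| + 1))| + 4 * 2 ^ K)
    filter_upwards [h2, h3, Filter.eventually_ge_atTop (1 : ℝ)] with L hL2 hL3 hL4
    refine ⟨?_, hL4⟩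
    have hLp : 0 < L ^ ε := Real.rpow_pos_of_pos (by linarith) _
    rw [abs_of_pos hLp] at hL2
    have h4 : |s| * Real.log L ≤ L ^ ε / 2 ^ K / 4 := by
      have h5 : Real.log L ≤ (1 / (4 * (|s| + 1) * 2 ^ K)) * L ^ ε := (le_abs_self _).trans hL2
      have h6 : |s| * Real.log L ≤ |s| * ((1 / (4 * (|s| + 1) * 2 ^ K)) * L ^ ε) :=
        mul_le_mul_of_nonneg_left h5 (abs_nonneg _)
      have h7 : |s| * ((1 / (4 * (|s| + 1) * 2 ^ K)) * L ^ ε) =
          (|s| / (|s| + 1)) * (L ^ ε / 2 ^ K / 4) := by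
        have : (|s| + 1) ≠ 0 := by positivity
        field_simp
      have h8 : |s| / (|s| + 1) ≤ 1 := by
        rw [div_le_one (by positivity)]; linarith
      calc |s| * Real.log L ≤ (|s| / (|s| + 1)) * (L ^ ε / 2 ^ K / 4) := by rw [← h7]; exact h6
        _ ≤ 1 * (L ^ ε / 2 ^ K / 4) := mul_le_mul_of_nonneg_right h8 (by positivity)
        _ = _ := one_mul _
    have h9 : Real.log (c0 * (|C| + 1)) < L ^ ε / 2 ^ K / 4 := by
      rw [div_div, lt_div_iff₀ (by positivity)]
      have := le_abs_self (Real.log (c0 * (|C| + 1)))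
      have h10 : (0 : ℝ) < 2 ^ K := by positivity
      nlinarith
    have h11 : 0 < L ^ ε / 2 ^ K := by positivity
    linarith
  have hlogN : Filter.Tendsto (fun N : ℕ => Real.log N) Filter.atTop Filter.atTop :=
    Real.tendsto_log_atTop.comp tendsto_natCast_atTop_atTop
  obtain ⟨N₀, hN₀⟩ := Filter.eventually_atTop.1 (hlogN.eventually hev)
  refine ⟨max N₀ 1, fun N hN m w Q ξ hξ hD => ?_⟩
  have hN1 : 1 ≤ N := (le_max_right _ _).trans hN
  obtain ⟨hL, hL1⟩ := hN₀ N ((le_max_left _ _).trans hN)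
  have hN0 : (0 : ℝ) < N := by exact_mod_cast hN1
  have hm := (main hd hb hN1 Q ξ hξ).trans hD
  rw [← hK] at hm
  set L := Real.log N with hLdef
  have hLpos : 0 < L := by linarith
  have hw : 0 < w := width_pos hN1 Q ξ hξ
  have hw0 : (0 : ℝ) < w := by exact_mod_cast hw
  rw [hK1]
  by_contra hcon
  push Not at hcon
  have hp : 0 < (N : ℝ) ^ ((1 : ℝ) / (2 * w) ^ K) / (c0 * N) := by positivity
  have hle : (N : ℝ) ^ ((1 : ℝ) / (2 * w) ^ K) / (c0 * N) ≤ C * L ^ s / N := by
    rcases ENNReal.ofReal_le_ofReal_iff'.1 hm with h | h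
    · exact h
    · exact absurd h (not_le.2 hp)
  have hle2 : (N : ℝ) ^ ((1 : ℝ) / (2 * w) ^ K) ≤ c0 * (|C| + 1) * L ^ |s| := by
    rw [div_le_div_iff₀ (by positivity) hN0] at hle
    have h1 : (N : ℝ) ^ ((1 : ℝ) / (2 * w) ^ K) ≤ C * L ^ s * c0 := by
      have : (N : ℝ) ^ ((1 : ℝ) / (2 * w) ^ K) * N ≤ (C * L ^ s * c0) * N := by linarith
      exact le_of_mul_le_mul_right this hN0
    have h2 : L ^ s ≤ L ^ |s| := Real.rpow_le_rpow_of_exponent_le hL1 (le_abs_self s)
    have h3 : 0 < L ^ s := Real.rpow_pos_of_pos hLpos _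
    have h4 : C * L ^ s ≤ (|C| + 1) * L ^ |s| :=
      mul_le_mul ((le_abs_self C).trans (by linarith)) h2 h3.le (by positivity)
    calc (N : ℝ) ^ ((1 : ℝ) / (2 * w) ^ K) ≤ C * L ^ s * c0 := h1
      _ ≤ ((|C| + 1) * L ^ |s|) * c0 := mul_le_mul_of_nonneg_right h4 hc0pos.le
      _ = _ := by ring
  have hlog := Real.log_le_log (by positivity) hle2
  rw [Real.log_rpow hN0, Real.log_mul (by positivity) (by positivity), Real.log_rpow hLpos,
    ← hLdef] at hlog
  -- lower bound of the left side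
  have hpow : ((w : ℝ)) ^ K < L ^ (1 - ε) := by
    have h1 : ((w : ℝ)) ^ K < (L ^ ε) ^ K := by
      apply pow_lt_pow_left₀ hcon hw0.le
      rw [hK]; norm_num
    have h2 : (L ^ ε) ^ K = L ^ (1 - ε) := by
      rw [← Real.rpow_natCast, ← Real.rpow_mul hLpos.le]
      congr 1
      rw [hε]
      field_simp
      ring
    rw [← h2]; exact h1
  have hlow : L ^ ε / 2 ^ K < 1 / (2 * w) ^ K * L := by
    rw [mul_pow, div_mul_eq_mul_div, one_mul, div_lt_div_iff₀ (by positivity) (by positivity)]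
    have h1 : L ^ ε * L ^ (1 - ε) = L := by
      rw [← Real.rpow_add hLpos]
      rw [show ε + (1 - ε) = 1 by ring, Real.rpow_one]
    have hLe : 0 < L ^ ε := Real.rpow_pos_of_pos hLpos _
    have h2K : (0 : ℝ) < 2 ^ K := by positivity
    calc L ^ ε * (2 ^ K * (w : ℝ) ^ K) = (L ^ ε * (w : ℝ) ^ K) * 2 ^ K := by ring
      _ < (L ^ ε * L ^ (1 - ε)) * 2 ^ K := by
          apply mul_lt_mul_of_pos_right _ h2K
          exact mul_lt_mul_of_pos_left hpow hLe
      _ = L * 2 ^ K := by rw [h1]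
  linarith

/-- almost every point of the cube has all coordinates `< 1` -/
theorem ae_lt_one (d : ℕ) :
    ∀ᵐ x ∂(volume.restrict (Set.Icc (0 : Fin d → ℝ) 1)), (∀ j, 0 ≤ x j) ∧ ∀ j, x j < 1 := by
  rw [ae_restrict_iff' measurableSet_Icc]
  have h : ∀ j : Fin d, ∀ᵐ x : Fin d → ℝ, x j ≠ 1 := by
    intro j
    rw [ae_iff]
    have : {x : Fin d → ℝ | ¬ x j ≠ 1} = {x | x j = 1} := by ext x; simp
    rw [this, volume_pi]
    exact Measure.pi_hyperplane (μ := fun _ : Fin d => (volume : Measure ℝ)) j 1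
  have h' : ∀ᵐ x : Fin d → ℝ, ∀ j, x j ≠ 1 := ae_all_iff.2 h
  filter_upwards [h'] with x hx hxI
  exact ⟨fun j => hxI.1 j, fun j => lt_of_le_of_ne (hxI.2 j) (hx j)⟩

/-- the balance of the bit reversal order -/
theorem balance (d μ : ℕ) (a : Fin d → ℕ) (ha : ∑ j, a j ≤ 2 ^ μ) (s l : ℕ) :
    (Finset.univ.filter (fun x : Fin (2 ^ μ) × Fin d => s ≤ x.1.val ∧ x.1.val ≤ s + l ∧
      (H64.SD.revEquiv μ x.1).val < a x.2)).card ≤ l + 1 + d * μ := by
  classical
  have h1 : (Finset.univ.filter (fun x : Fin (2 ^ μ) × Fin d => s ≤ x.1.val ∧ x.1.val ≤ s + l ∧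
      (H64.SD.revEquiv μ x.1).val < a x.2)).card ≤ ∑ j : Fin d, H64.SD.cb μ s (l + 1) (a j) := by
    rw [Finset.card_filter, Fintype.sum_prod_type_right]
    refine Finset.sum_le_sum fun j _ => ?_
    rw [← Finset.card_filter]
    unfold H64.SD.cb
    rw [← Finset.card_filter]
    refine Finset.card_le_card_of_injOn (fun τ => τ.val - s) ?_ ?_
    · intro τ hτ
      simp only [Finset.coe_filter, Finset.mem_univ, true_and, Set.mem_setOf_eq] at hτ
      simp only [Finset.coe_filter, Finset.mem_range, Set.mem_setOf_eq]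
      refine ⟨by omega, ?_⟩
      rw [show s + (τ.val - s) = τ.val by omega]
      exact hτ.2.2
    · intro τ hτ τ' hτ' h
      simp only [Finset.coe_filter, Finset.mem_univ, true_and, Set.mem_setOf_eq] at hτ hτ'
      simp only at h
      exact Fin.ext (by omega)
  have haj : ∀ j, a j ≤ 2 ^ μ := fun j => le_trans
    (Finset.single_le_sum (f := a) (fun _ _ => Nat.zero_le _) (Finset.mem_univ j)) ha
  have h2 : 2 ^ μ * ∑ j : Fin d, H64.SD.cb μ s (l + 1) (a j) ≤ 2 ^ μ * (l + 1 + d * μ) := by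
    rw [Finset.mul_sum]
    calc ∑ j : Fin d, 2 ^ μ * H64.SD.cb μ s (l + 1) (a j)
        ≤ ∑ j : Fin d, ((l + 1) * a j + μ * 2 ^ μ) :=
          Finset.sum_le_sum fun j _ => H64.SD.cb_le μ s (l + 1) (a j) (haj j)
      _ = (l + 1) * ∑ j, a j + d * (μ * 2 ^ μ) := by
          rw [Finset.sum_add_distrib, Finset.mul_sum, Finset.sum_const, Finset.card_univ,
            Fintype.card_fin, smul_eq_mul]
      _ ≤ (l + 1) * 2 ^ μ + d * (μ * 2 ^ μ) := Nat.add_le_add_right (Nat.mul_le_mul_left _ ha) _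
      _ = 2 ^ μ * (l + 1 + d * μ) := by ring
  exact h1.trans (Nat.le_of_mul_le_mul_left h2 (by positivity))

theorem numbers (d μ : ℕ) :
    (2 ^ μ + 1) ^ d * 2 ^ μ * 2 ^ μ * 2 ^ (d * μ) < 2 ^ ((2 * d + 2) * μ + d + 1) := by
  have h1 : 2 ^ μ + 1 ≤ 2 ^ (μ + 1) := by
    have : 1 ≤ 2 ^ μ := Nat.one_le_two_pow
    rw [pow_succ]; omega
  have h2 : (2 ^ μ + 1) ^ d ≤ 2 ^ ((μ + 1) * d) := by
    rw [pow_mul]; exact Nat.pow_le_pow_left h1 d
  calc (2 ^ μ + 1) ^ d * 2 ^ μ * 2 ^ μ * 2 ^ (d * μ)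
      ≤ 2 ^ ((μ + 1) * d) * 2 ^ μ * 2 ^ μ * 2 ^ (d * μ) := by gcongr
    _ = 2 ^ ((2 * d + 2) * μ + d) := by rw [← pow_add, ← pow_add, ← pow_add]; congr 1; ring
    _ < 2 ^ ((2 * d + 2) * μ + d + 1) := Nat.pow_lt_pow_right (by norm_num) (by omega)

theorem construction (d : ℕ) (hd : 1 ≤ d) (μ : ℕ) :
    ∃ (N : ℕ) (Q : Program d 2 (2 ^ μ) (2 ^ ((2 * d + 2) * μ + d + 1 + 1)))
      (ξ : Fin N → Fin d → ℝ), Computes Q ξ ∧ 2 ^ 2 ^ μ ≤ N ∧
      starDisc ⊤ ξ ≤ ENNReal.ofReal (((2 : ℝ) ^ μ + 1) ^ d * 2 ^ ((2 * d + 2) * μ + d + 1) / N) := by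
  classical
  set m := 2 ^ μ with hm
  set D := (2 * d + 2) * μ + d + 1 with hD
  have hm0 : 0 < m := by rw [hm]; positivity
  obtain ⟨G, hG⟩ := H64.SD.code_exists (d := d) (D := D)
    (fun τ : Fin m => (H64.SD.revEquiv μ τ).val) (d * μ)
    (fun a ha s l => balance d μ a ha s l) (numbers d μ)
  set π : Fin m ≃ Fin m := H64.SD.revEquiv μ with hπ
  set P := H64.SD.PS π G with hP
  have hex : H64.SD.Exact P := H64.SD.exact_PS π G hG
  have hPne : P.Nonempty := by
    rw [hP]
    unfold H64.SD.PS H64.SD.PZ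
    exact (Finset.univ_nonempty.image _).image _
  set N := P.card with hN
  have hN0 : 0 < N := Finset.card_pos.2 hPne
  have hNr : (0 : ℝ) < N := by exact_mod_cast hN0
  obtain ⟨z, hz⟩ := hPne
  have hNlow : 2 ^ m ≤ N := by
    have h := hex (fun j => if j = ⟨0, hd⟩ then m else 0) (by simp) z 0
    have hsum : ∑ j : Fin d, (if j = ⟨0, hd⟩ then m else 0) = m := by simp
    rw [hsum] at h
    have h1 : (1 : ℝ) ≤ H64.SD.cn P (0 : Fin d → ℝ) (fun j => if j = ⟨0, hd⟩ then m else 0) z ∅ := by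
      unfold H64.SD.cn
      have : 1 ≤ (P.filter (fun f => H64.SD.Pre (fun j => if j = ⟨0, hd⟩ then m else 0) z f ∧
          ∀ j ∈ (∅ : Finset (Fin d)), H64.SD.pt f j ≤ (0 : Fin d → ℝ) j)).card := by
        apply Finset.card_pos.2
        exact ⟨z, Finset.mem_filter.2 ⟨hz, fun _ _ _ => rfl, by simp⟩⟩
      exact_mod_cast this
    rw [h, le_div_iff₀ (by positivity), one_mul] at h1
    exact_mod_cast h1
  have hNup : N ≤ 2 ^ (m + D) := by
    have h1 : N ≤ (Finset.univ : Finset (Fin (m + D) → ZMod 2)).card := by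
      rw [hN, hP]
      unfold H64.SD.PS H64.SD.PZ
      exact Finset.card_image_le.trans Finset.card_image_le
    rwa [Finset.card_univ, Fintype.card_fun, ZMod.card, Fintype.card_fin] at h1
  let Q : Program d 2 m (2 ^ (D + 1)) :=
    { order := H64.SD.ordE d π
      step := H64.SD.stp π G
      start := Set.univ
      accept := Set.univ }
  have hacc : ∀ f, Q.Accepts f ↔ f ∈ P := by
    intro f
    rw [hP, H64.SD.program_PS hd hm0 π G f]
    constructor
    · rintro ⟨r, _, hr, _⟩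
      exact ⟨r, hr⟩
    · rintro ⟨r, hr⟩
      exact ⟨r, trivial, hr, trivial⟩
  let F : Fin N → (Fin d × Fin m → Fin 2) := fun i => (P.equivFin.symm i).val
  have hFinj : Function.Injective F := fun i i' h => P.equivFin.symm.injective (Subtype.ext h)
  have hFrange : ∀ f, f ∈ P ↔ f ∈ Set.range F := by
    intro f
    constructor
    · intro hf
      exact ⟨P.equivFin ⟨f, hf⟩, by simp only [F, Equiv.symm_apply_apply]⟩
    · rintro ⟨i, rfl⟩
      exact (P.equivFin.symm i).2
  refine ⟨N, Q, fun i => point (F i), ⟨F, hFinj, fun f => (hacc f).trans (hFrange f), fun _ => rfl⟩,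
    hNlow, ?_⟩
  -- the discrepancy
  have hbound : ∀ x : Fin d → ℝ, (∀ j, 0 ≤ x j) → (∀ j, x j < 1) →
      |localDisc (fun i => point (F i)) x| ≤ ((2 : ℝ) ^ μ + 1) ^ d * 2 ^ D / N := by
    intro x hx0 hx1
    have h := H64.SD.net_bound P hex x hx0 hx1 Finset.univ (fun _ => 0) z (fun _ _ => rfl) (by simp)
    have hcn : H64.SD.cn P x (fun _ => 0) z Finset.univ =
        ∑ i : Fin N, (Set.Icc (0 : Fin d → ℝ) x).indicator (fun _ => (1:ℝ)) (point (F i)) := by
      unfold H64.SD.cn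
      have hPimg : P = Finset.univ.image F := by
        ext f
        rw [hFrange f]
        simp
      have h1 : (P.filter (fun f => H64.SD.Pre (fun _ => 0) z f ∧
          ∀ j ∈ (Finset.univ : Finset (Fin d)), H64.SD.pt f j ≤ x j)).card =
          (Finset.univ.filter (fun i : Fin N => ∀ j, H64.SD.pt (F i) j ≤ x j)).card := by
        conv_lhs => rw [hPimg]
        rw [Finset.filter_image, Finset.card_image_of_injective _ hFinj]
        congr 1
        ext i
        simp only [Finset.mem_filter, Finset.mem_univ, true_and, forall_true_left]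
        constructor
        · rintro ⟨_, h2⟩; exact h2
        · intro h2
          exact ⟨fun _ _ hi => absurd hi (Nat.not_lt_zero _), h2⟩
      rw [h1, Finset.card_filter]
      push_cast
      refine Finset.sum_congr rfl fun i _ => ?_
      have hiff : point (F i) ∈ Set.Icc (0 : Fin d → ℝ) x ↔ ∀ j, H64.SD.pt (F i) j ≤ x j := by
        constructor
        · intro h2 j
          exact h2.2 j
        · intro h2
          exact ⟨fun j => H64.SD.pt_nonneg _ _, fun j => h2 j⟩
      by_cases h2 : ∀ j, H64.SD.pt (F i) j ≤ x j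
      · rw [if_pos h2, Set.indicator_of_mem (hiff.2 h2)]
      · rw [if_neg h2, Set.indicator_of_notMem (fun h3 => h2 (hiff.1 h3))]
    have h0 : ∑ j : Fin d, (fun _ : Fin d => 0) j = 0 := by simp
    rw [hcn, h0, pow_zero, div_one, Finset.card_univ, Fintype.card_fin, ← hN] at h
    have h2 : |localDisc (fun i => point (F i)) x| * N =
        |∑ i : Fin N, (Set.Icc (0 : Fin d → ℝ) x).indicator (fun _ => (1:ℝ)) (point (F i)) -
          N * ∏ j, x j| := by
      rw [← abs_of_pos hNr, ← abs_mul, ← abs_neg]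
      congr 1
      rw [abs_of_pos hNr]
      unfold localDisc
      field_simp
      ring
    rw [le_div_iff₀ hNr, h2]
    refine h.trans ?_
    have h3 : H64.SD.Er m d ≤ ((2 : ℝ) ^ μ + 1) ^ d := by
      refine (H64.SD.Er_le m d).trans (le_of_eq ?_)
      rw [hm]; push_cast; ring
    have h4 : (N : ℝ) / 2 ^ m ≤ 2 ^ D := by
      rw [div_le_iff₀ (by positivity), ← pow_add, add_comm]
      exact_mod_cast hNup
    exact mul_le_mul h3 h4 (by positivity) (by positivity)
  unfold starDisc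
  rw [eLpNorm_exponent_top]
  refine essSup_le_of_ae_le _ ?_
  filter_upwards [ae_lt_one d] with x hx
  rw [← ofReal_norm, Real.norm_eq_abs]
  exact ENNReal.ofReal_le_ofReal (hbound x hx.1 hx.2)

/-- small width suffices -/
theorem small_width (d : ℕ) (hd : 1 ≤ d) (μ : ℕ) :
    ∃ (N w : ℕ) (Q : Program d 2 (2 ^ μ) w) (ξ : Fin N → Fin d → ℝ), Computes Q ξ ∧
      2 ^ 2 ^ μ ≤ N ∧ (w : ℝ) ≤ 2 ^ (3 * d + 4) * (Real.log N) ^ (2 * d + 2) ∧
      starDisc ⊤ ξ ≤ ENNReal.ofReal (2 ^ (5 * d + 3) * (Real.log N) ^ (3 * d + 2) / N) := by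
  obtain ⟨N, Q, ξ, h1, h2, h3⟩ := construction d hd μ
  have hm0 : (1 : ℝ) ≤ 2 ^ μ := one_le_pow₀ (by norm_num)
  have hlog : (2 : ℝ) ^ μ ≤ 2 * Real.log N := by
    have h4 : Real.log ((2 : ℝ) ^ 2 ^ μ) ≤ Real.log N :=
      Real.log_le_log (by positivity) (by exact_mod_cast h2)
    rw [Real.log_pow] at h4
    push_cast at h4
    have h5 : (1 : ℝ) / 2 < Real.log 2 := by linarith [Real.log_two_gt_d9]
    nlinarith
  have hL : 0 ≤ Real.log N := by nlinarith
  refine ⟨N, _, Q, ξ, h1, h2, ?_, h3.trans (ENNReal.ofReal_le_ofReal ?_)⟩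
  · push_cast
    calc (2 : ℝ) ^ ((2 * d + 2) * μ + d + 1 + 1) = ((2 : ℝ) ^ μ) ^ (2 * d + 2) * 2 ^ (d + 2) := by
          rw [← pow_mul, ← pow_add]; congr 1; ring
      _ ≤ (2 * Real.log N) ^ (2 * d + 2) * 2 ^ (d + 2) := by gcongr
      _ = 2 ^ (3 * d + 4) * (Real.log N) ^ (2 * d + 2) := by
          rw [mul_pow, mul_right_comm, ← pow_add]; congr 2; ring
  · apply div_le_div_of_nonneg_right _ (Nat.cast_nonneg _)
    calc ((2 : ℝ) ^ μ + 1) ^ d * 2 ^ ((2 * d + 2) * μ + d + 1)
        ≤ (2 * (2 : ℝ) ^ μ) ^ d * 2 ^ ((2 * d + 2) * μ + d + 1) := by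
          gcongr
          linarith
      _ = ((2 : ℝ) ^ μ) ^ (3 * d + 2) * 2 ^ (2 * d + 1) := by
          rw [mul_pow, ← pow_mul, ← pow_mul, mul_assoc, ← pow_add, ← pow_add, ← pow_add]
          congr 1; ring
      _ ≤ (2 * Real.log N) ^ (3 * d + 2) * 2 ^ (2 * d + 1) := by gcongr
      _ = 2 ^ (5 * d + 3) * (Real.log N) ^ (3 * d + 2) := by
          rw [mul_pow, mul_right_comm, ← pow_add]; congr 2; ring

/-- **Result.**  Let `d ≥ 3`.

(1) If a set `ξ` of `N ≥ 1` points with base `b` digits (`b ≥ 2`) is computed by a nondeterministic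
program of width `w`, then its star discrepancy is at least
`N^(-1 + (2w)^(-101383)) / (2^(d+1) b^3)`.

(2) For all real `C` and `s` and all large `N`: a set `ξ` of `N` points with star discrepancy at
most `C (log N)^s / N` is not computed by a nondeterministic program of width less than
`(log N)^(1/101384)`.

(3) For every `m = 2 ^ μ` there is a set of `N ≥ 2 ^ m` points with `m` binary digits, computed by a
nondeterministic program of width `w ≤ 2 ^ (3d + 4) (log N) ^ (2d + 2)`, with star discrepancy at most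
`2 ^ (5d + 3) (log N) ^ (3d + 2) / N`. -/
theorem result {d : ℕ} (hd : 3 ≤ d) :
    (∀ b : ℕ, 2 ≤ b →
      (∀ (m w N : ℕ) (Q : Program d b m w) (ξ : Fin N → Fin d → ℝ), 1 ≤ N → Computes Q ξ →
        ENNReal.ofReal ((N : ℝ) ^ ((1 : ℝ) / (2 * w) ^ 101383) / (2 ^ (d + 1) * (b : ℝ) ^ 3 * N)) ≤
          starDisc ⊤ ξ) ∧
      (∀ C s : ℝ, ∃ N₀ : ℕ, ∀ N : ℕ, N₀ ≤ N →
        ∀ (m w : ℕ) (Q : Program d b m w) (ξ : Fin N → Fin d → ℝ), Computes Q ξ →
          starDisc ⊤ ξ ≤ ENNReal.ofReal (C * (Real.log N) ^ s / N) →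
          (Real.log N) ^ ((1 : ℝ) / 101384) ≤ w)) ∧
    (∀ μ : ℕ, ∃ (N w : ℕ) (Q : Program d 2 (2 ^ μ) w) (ξ : Fin N → Fin d → ℝ), Computes Q ξ ∧
      2 ^ 2 ^ μ ≤ N ∧ (w : ℝ) ≤ 2 ^ (3 * d + 4) * (Real.log N) ^ (2 * d + 2) ∧
      starDisc ⊤ ξ ≤ ENNReal.ofReal (2 ^ (5 * d + 3) * (Real.log N) ^ (3 * d + 2) / N)) :=
  ⟨fun _ hb => ⟨fun _ _ _ Q ξ hN hξ => main hd hb hN Q ξ hξ, fun C s => width hd hb C s⟩,
    fun μ => small_width d (by omega) μ⟩

end Pool.Agent.Results.MP_173de9_an.BoundedWidth
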