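import Pool.Agent.V11160.DC.Net

/-!
# Star discrepancy of point sets closed under an operation on the digits

`m` points of the cube `[0,1)^d` are given by their digit matrices `ξ μ j i` (`i`-th binary digit
of the `j`-th coordinate of the `μ`-th point; finitely many digits).

* If `d ≥ 3` and the set of digit matrices is closed under one Boolean operation `f`, applied
  digit by digit, which is not affine (AND, OR, majority, ...), then the star discrepancy is at
  least `16 ^ (-d) * m ^ ((d - 2) / (2 * d - 3) - 1)`.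
* The same holds if it is closed under the binary operation which is AND in some digits and OR in
  the others.
* For all `d ≥ 2`, `k ≥ 1` there are `m = 2 ^ (d * k)` points, closed under all Boolean operations
  on the digits, with star discrepancy at most `(2 * k + 1) ^ (d - 1) / 4 ^ k`, where
  `4 ^ (-k) = m ^ ((d - 2) / d - 1)`.

So for `d = 3` the exponent is exactly `1 / 3 - 1`, and for `d = 2` there is no such phenomenon.
-/

set_option autoImplicit false

open MeasureTheory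

namespace Pool.Agent.Results.MP_173de9_an.DigitwiseOperations

/-- `∏ x_j - (1/m) ∑_μ χ_{[0,x]}(ξ^μ)` -/
noncomputable def localDisc {m d : ℕ} (ξ : Fin m → Fin d → ℝ) (x : Fin d → ℝ) : ℝ :=
  ∏ j, x j - (1 / (m:ℝ)) * ∑ μ : Fin m, (Set.Icc (0 : Fin d → ℝ) x).indicator (fun _ => (1:ℝ)) (ξ μ)

/-- the star discrepancy `D(ξ,m,d)_q` -/
noncomputable def starDisc (q : ENNReal) {m d : ℕ} (ξ : Fin m → Fin d → ℝ) : ENNReal :=
  eLpNorm (localDisc ξ) q (volume.restrict (Set.Icc (0 : Fin d → ℝ) 1))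

/-- the point with the given binary digits -/
noncomputable def pt {m d n : ℕ} (ξ : Fin m → Fin d → Fin n → Bool) (μ : Fin m) (j : Fin d) : ℝ :=
  ∑ i : Fin n, if ξ μ j i then (1 / 2 : ℝ) ^ ((i : ℕ) + 1) else 0

/-- `f` is a constant plus a sum of variables modulo two. -/
def Affine {k : ℕ} (f : (Fin k → Bool) → Bool) : Prop :=
  ∃ (c : Bool) (A : Finset (Fin k)), ∀ v,
    f v = xor c (decide (Odd (A.filter fun i => v i = true).card))

/-- The set of the digit matrices is closed under `f`, applied digit by digit. -/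
def Closed {m d n k : ℕ} (f : (Fin k → Bool) → Bool) (ξ : Fin m → Fin d → Fin n → Bool) : Prop :=
  ∀ w : Fin k → Fin m, ∃ κ, ∀ j i, ξ κ j i = f fun l => ξ (w l) j i

/-- The set of the digit matrices is closed under the binary operation which is OR in the digits
`(j, i)` with `c j i = true` and AND in the others. -/
def AndOrClosed {m d n : ℕ} (c : Fin d → Fin n → Bool) (ξ : Fin m → Fin d → Fin n → Bool) : Prop :=
  ∀ μ ν, ∃ κ, ∀ j i, ξ κ j i = if c j i then ξ μ j i || ξ ν j i else ξ μ j i && ξ ν j i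

/-- the lower bound `16 ^ (-d) * m ^ ((d - 2) / (2 * d - 3) - 1)` for the star discrepancy -/
def Lower {m d n : ℕ} (ξ : Fin m → Fin d → Fin n → Bool) : Prop :=
  ENNReal.ofReal ((1 / 16) ^ d * (m : ℝ) ^ (((d : ℝ) - 2) / (2 * d - 3) - 1)) ≤ starDisc ⊤ (pt ξ)

lemma lower_of {m e n : ℕ} (hm : 1 ≤ m) (ξ : Fin m → Fin (e + 1) → Fin n → Bool)
    (h : ∀ M : ℝ, 0 ≤ M → starDisc ⊤ (pt ξ) ≤ ENNReal.ofReal M →
      (m : ℝ) ^ (((e : ℝ) - 1) / (2 * e - 1)) ≤ 16 ^ (e + 1) * (M * m)) : Lower ξ := by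
  have hm' : (0 : ℝ) < m := by exact_mod_cast hm
  unfold Lower
  by_cases ht : starDisc ⊤ (pt ξ) = ⊤
  · rw [ht]; exact le_top
  have h1 := h (starDisc ⊤ (pt ξ)).toReal ENNReal.toReal_nonneg (ENNReal.ofReal_toReal ht).ge
  rw [← ENNReal.ofReal_toReal ht]
  apply ENNReal.ofReal_le_ofReal
  rw [Real.rpow_sub hm', Real.rpow_one, one_div_pow]
  have h2 : (((e + 1 : ℕ) : ℝ) - 2) / (2 * ((e + 1 : ℕ) : ℝ) - 3) = ((e : ℝ) - 1) / (2 * e - 1) := by
    push_cast
    congr 1 <;> ring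
  rw [h2, one_div_mul_eq_div, div_div, div_le_iff₀ (by positivity)]
  calc (m : ℝ) ^ (((e : ℝ) - 1) / (2 * e - 1)) ≤
        16 ^ (e + 1) * ((starDisc ⊤ (pt ξ)).toReal * m) := h1
    _ = (starDisc ⊤ (pt ξ)).toReal * (m * 16 ^ (e + 1)) := by ring

/-- **Main result.** -/
theorem result :
    -- closed under one operation which is not affine
    (∀ {m d n k : ℕ}, 1 ≤ m → 3 ≤ d → ∀ f : (Fin k → Bool) → Bool, ¬ Affine f →
      ∀ ξ : Fin m → Fin d → Fin n → Bool, Closed f ξ → Lower ξ) ∧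
    -- closed under AND / OR, chosen digit by digit
    (∀ {m d n : ℕ}, 1 ≤ m → 3 ≤ d → ∀ (c : Fin d → Fin n → Bool)
      (ξ : Fin m → Fin d → Fin n → Bool), AndOrClosed c ξ → Lower ξ) ∧
    -- points closed under all operations
    (∀ d k : ℕ, 2 ≤ d → 1 ≤ k → ∃ ξ : Fin (2 ^ (d * k)) → Fin d → Fin (d * k) → Bool,
      (∀ {r : ℕ} (f : (Fin r → Bool) → Bool), Closed f ξ) ∧
      starDisc ⊤ (pt ξ) ≤ ENNReal.ofReal ((2 * k + 1) ^ (d - 1) / 4 ^ k)) := by
  refine ⟨?_, ?_, ?_⟩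
  · intro m d n k hm hd f hf ξ hcl
    obtain ⟨e, rfl⟩ : ∃ e, d = e + 1 := ⟨d - 1, by omega⟩
    exact lower_of hm ξ fun M hM0 hM =>
      Pool.Agent.V11160.DC.main_f (by omega) hm ξ hf hcl hM0 hM
  · intro m d n hm hd c ξ hcl
    obtain ⟨e, rfl⟩ : ∃ e, d = e + 1 := ⟨d - 1, by omega⟩
    refine lower_of hm ξ fun M hM0 hM =>
      Pool.Agent.V11160.DC.main_maj (by omega) hm ξ c ?_ hM0 hM
    intro μ ν
    obtain ⟨κ, hκ⟩ := hcl μ ν
    refine ⟨κ, fun j i => ?_⟩
    rw [hκ j i]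
    cases c j i <;> cases ξ μ j i <;> cases ξ ν j i <;> rfl
  · intro d k hd hk
    obtain ⟨e, rfl⟩ : ∃ e, d = e + 2 := ⟨d - 2, by omega⟩
    obtain ⟨k', rfl⟩ : ∃ k', k = k' + 1 := ⟨k - 1, by omega⟩
    refine ⟨Pool.Agent.V11160.DC.blk e k', ?_, ?_⟩
    · intro r f w
      exact Pool.Agent.V11160.DC.blk_closed e k' f w
    · have := Pool.Agent.V11160.DC.blk_disc e k'
      push_cast
      exact this

end Pool.Agent.Results.MP_173de9_an.DigitwiseOperations
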