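import Pool.Agent.V11201.LD.Main

set_option autoImplicit false

/-!
# The star discrepancy of local constructions

A *local construction* numbers `N = b ^ m` points of `[0,1)^d` by `m` digits in base `b` in such a way
that every digit of every coordinate (in base `b`) depends on at most `c` of the `m` digits of the
number of the point. The dependence on these `c` digits is arbitrary, and the `c` digits are arbitrary
for each digit of each coordinate; in the usual digital nets the digits are linear forms in all `m`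
digits.

1. If `c < d / 2`, then the star discrepancy is at least `N ^ (-1 + δ) / (2 ^ d b ^ 2)`, where
   `δ = 1 / (4 d (16 d + 1) ^ d)` does not depend on `b` and `m`.
2. For `d = 2` and `c = 1 = d / 2` this is false: there are local constructions of `N = 4 ^ k` points
   in the plane with star discrepancy at most `(1 + log₂ N) / N` (Hammersley sets).

So for every `d ≥ 3` point sets with star discrepancy near the known bounds `(log N) ^ (d - 1) / N`
need digits that depend on at least `d / 2` digits of the number of the point.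

Proof of 1 (`Pool/Agent/V11201/LD`). For a digit `i` of the number let `q_j(i)` be the number of
leading digits of the coordinate `j` which do not depend on it (capped at `m / c`). As each digit
depends on at most `c` digits, the mean of `q_j(i)` over `i` is at least `m / (2 c)`, up to lower order
terms, so that the mean of `q_1(i) + … + q_d(i)` exceeds `m (1 + 1 / (2 c))`. Hence for a positive
proportion of the `i` this sum is at least `m`, even if the `q_j(i)` are rounded down to multiples of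
`m / (8 c d)`, and by the pigeonhole principle it is the same vector `r` for a set `U` of at least
`δ m` digits `i`. The leading `r_1, …, r_d` digits of the coordinates do not depend on the digits in
`U`, so they take at most `b ^ (m - |U|)` values, and there is an elementary box of volume
`b ^ (-(m - |U| + 1))` without points.
-/

open MeasureTheory

namespace Pool.Agent.Results.MP_173de9_an.LocalConstructions

/-- the local discrepancy `∏ x_j - (1/m) ∑_μ χ_{[0,x]}(ξ^μ)` -/
noncomputable def localDisc {m d : ℕ} (ξ : Fin m → Fin d → ℝ) (x : Fin d → ℝ) : ℝ :=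
  ∏ j, x j - (1 / (m:ℝ)) * ∑ μ : Fin m, (Set.Icc (0 : Fin d → ℝ) x).indicator (fun _ => (1:ℝ)) (ξ μ)

/-- the star discrepancy `D(ξ,m,d)_q` -/
noncomputable def starDisc (q : ENNReal) {m d : ℕ} (ξ : Fin m → Fin d → ℝ) : ENNReal :=
  eLpNorm (localDisc ξ) q (volume.restrict (Set.Icc (0 : Fin d → ℝ) 1))

/-- the digit with number `s = 0, 1, …` of the fractional expansion of `x ∈ [0,1)` in base `b` -/
noncomputable def digit (b s : ℕ) (x : ℝ) : ℕ := ⌊(b : ℝ) ^ (s + 1) * x⌋₊ % b

/-- `b ^ m` points, numbered by `m` digits in base `b`, such that every digit of every coordinate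
depends on at most `c` of these `m` digits -/
def LocalConstruction (b m c : ℕ) {d : ℕ} (ξ : Fin (b ^ m) → Fin d → ℝ) : Prop :=
  ∃ e : (Fin m → Fin b) ≃ Fin (b ^ m), ∀ (j : Fin d) (s : ℕ), ∃ A : Finset (Fin m), A.card ≤ c ∧
    ∀ w w' : Fin m → Fin b, (∀ i ∈ A, w i = w' i) →
      digit b s (ξ (e w) j) = digit b s (ξ (e w') j)

theorem lower {b m c d : ℕ} (hb : 2 ≤ b) (hc : 1 ≤ c) (hcd : 2 * c < d)
    (ξ : Fin (b ^ m) → Fin d → ℝ) (h01 : ∀ μ j, 0 ≤ ξ μ j ∧ ξ μ j < 1)
    (hξ : LocalConstruction b m c ξ) :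
    ENNReal.ofReal (((b ^ m : ℕ) : ℝ) ^ (-1 + 1 / (4 * d * (16 * d + 1) ^ d) : ℝ) /
      (2 ^ d * (b : ℝ) ^ 2)) ≤ starDisc ⊤ ξ := by
  obtain ⟨e, he⟩ := hξ
  by_cases ht : starDisc ⊤ ξ = ⊤
  · rw [ht]
    exact le_top
  rw [← ENNReal.ofReal_toReal ht]
  apply ENNReal.ofReal_le_ofReal
  choose A hAc hA using he
  exact Pool.Agent.V11201.LD.main hb e ξ h01 A hAc hA hc hcd ENNReal.toReal_nonneg
    (by rw [ENNReal.ofReal_toReal ht]; exact le_refl _)

theorem digit_val : ∀ (s N : ℕ) (v : ℕ → Bool),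
    digit 2 s (Pool.Agent.V11160.DC.val N v) = if s < N ∧ v s = true then 1 else 0 := by
  intro s
  induction s with
  | zero =>
    intro N v
    cases N with
    | zero => simp [digit, Pool.Agent.V11160.DC.val_zero]
    | succ N =>
      unfold digit
      have h1 := Pool.Agent.V11160.DC.val_lt_one N fun i => v (i + 1)
      have h2 := Pool.Agent.V11160.DC.val_nonneg N fun i => v (i + 1)
      have h3 : ((2 : ℕ) : ℝ) ^ (0 + 1) * Pool.Agent.V11160.DC.val (N + 1) v =
          ((if v 0 then 1 else 0 : ℕ) : ℝ) + Pool.Agent.V11160.DC.val N fun i => v (i + 1) := by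
        rw [Pool.Agent.V11160.DC.val_succ]
        split_ifs <;> (push_cast; ring)
      rw [h3, add_comm, Nat.floor_add_natCast h2, Nat.floor_eq_zero.2 h1, zero_add]
      cases hv : v 0 <;> simp
  | succ s ih =>
    intro N v
    cases N with
    | zero => simp [digit, Pool.Agent.V11160.DC.val_zero]
    | succ N =>
      have h2 := Pool.Agent.V11160.DC.val_nonneg N fun i => v (i + 1)
      have h3 : ((2 : ℕ) : ℝ) ^ (s + 1 + 1) * Pool.Agent.V11160.DC.val (N + 1) v =
          ((2 * (if v 0 then 2 ^ s else 0) : ℕ) : ℝ) +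
            ((2 : ℕ) : ℝ) ^ (s + 1) * Pool.Agent.V11160.DC.val N fun i => v (i + 1) := by
        rw [Pool.Agent.V11160.DC.val_succ]
        split_ifs <;> (push_cast; ring)
      have h4 : digit 2 (s + 1) (Pool.Agent.V11160.DC.val (N + 1) v) =
          digit 2 s (Pool.Agent.V11160.DC.val N fun i => v (i + 1)) := by
        unfold digit
        rw [h3, add_comm, Nat.floor_add_natCast (by positivity), Nat.add_mul_mod_self_left]
      rw [h4, ih]
      simp

theorem upper (k' : ℕ) : ∃ ξ : Fin (2 ^ (2 * (k' + 1))) → Fin 2 → ℝ,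
    (∀ μ j, 0 ≤ ξ μ j ∧ ξ μ j < 1) ∧ LocalConstruction 2 (2 * (k' + 1)) 1 ξ ∧
      starDisc ⊤ ξ ≤ ENNReal.ofReal ((2 * (k' + 1) + 1) ^ (0 + 1) / 4 ^ (k' + 1)) := by
  have h01 : ∀ (μ : Fin (2 ^ ((0 + 2) * (k' + 1)))) j,
      0 ≤ Pool.Agent.V11160.DC.pt (Pool.Agent.V11160.DC.blk 0 k') μ j ∧
        Pool.Agent.V11160.DC.pt (Pool.Agent.V11160.DC.blk 0 k') μ j < 1 := by
    intro μ j
    rw [Pool.Agent.V11160.DC.pt_eq]
    exact ⟨Pool.Agent.V11160.DC.val_nonneg _ _, Pool.Agent.V11160.DC.val_lt_one _ _⟩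
  refine ⟨Pool.Agent.V11160.DC.pt (Pool.Agent.V11160.DC.blk 0 k'), h01, ?_,
    Pool.Agent.V11160.DC.blk_disc 0 k'⟩
  refine ⟨(Equiv.arrowCongr finProdFinEquiv.symm finTwoEquiv).trans
    (Pool.Agent.V11160.DC.eqv 0 k'), fun j s => ?_⟩
  refine ⟨{finProdFinEquiv (Pool.Agent.V11160.DC.phi 0 k' j s)}, by simp, ?_⟩
  intro w w' hw
  rw [Pool.Agent.V11160.DC.pt_eq, Pool.Agent.V11160.DC.pt_eq, digit_val, digit_val]
  have h1 := hw _ (Finset.mem_singleton_self _)
  have h2 : ∀ u : Fin (2 * (k' + 1)) → Fin 2,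
      Pool.Agent.V11160.DC.dig (Pool.Agent.V11160.DC.blk 0 k'
        (((Equiv.arrowCongr finProdFinEquiv.symm finTwoEquiv).trans
          (Pool.Agent.V11160.DC.eqv 0 k')) u) j) s =
      if s < (0 + 2) * (k' + 1) then
        finTwoEquiv (u (finProdFinEquiv (Pool.Agent.V11160.DC.phi 0 k' j s))) else false := by
    intro u
    unfold Pool.Agent.V11160.DC.dig
    split_ifs with h
    · unfold Pool.Agent.V11160.DC.blk
      simp only [Equiv.trans_apply, Equiv.symm_apply_apply]
      rfl
    · rfl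
  rw [h2, h2, h1]

/-- 1. Local constructions with `c < d / 2` have star discrepancy at least
`N ^ (-1 + 1 / (4 d (16 d + 1) ^ d)) / (2 ^ d b ^ 2)`, `N = b ^ m`.
2. For `d = 2`, `c = 1` there are local constructions of `N = 2 ^ (2 k)` points with star discrepancy
at most `(2 k + 1) / N`. -/
theorem result :
    (∀ (b m c d : ℕ) (ξ : Fin (b ^ m) → Fin d → ℝ), 2 ≤ b → 1 ≤ c → 2 * c < d →
      (∀ μ j, 0 ≤ ξ μ j ∧ ξ μ j < 1) → LocalConstruction b m c ξ →
      ENNReal.ofReal (((b ^ m : ℕ) : ℝ) ^ (-1 + 1 / (4 * d * (16 * d + 1) ^ d) : ℝ) /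
        (2 ^ d * (b : ℝ) ^ 2)) ≤ starDisc ⊤ ξ) ∧
    ∀ k : ℕ, 1 ≤ k → ∃ ξ : Fin (2 ^ (2 * k)) → Fin 2 → ℝ,
      (∀ μ j, 0 ≤ ξ μ j ∧ ξ μ j < 1) ∧ LocalConstruction 2 (2 * k) 1 ξ ∧
        starDisc ⊤ ξ ≤ ENNReal.ofReal ((2 * k + 1) / 2 ^ (2 * k)) := by
  refine ⟨fun b m c d ξ hb hc hcd h01 hξ => lower hb hc hcd ξ h01 hξ, ?_⟩
  intro k hk
  obtain ⟨k', rfl⟩ : ∃ k', k = k' + 1 := ⟨k - 1, by omega⟩
  obtain ⟨ξ, h1, h2, h3⟩ := upper k'
  refine ⟨ξ, h1, h2, h3.trans (le_of_eq ?_)⟩
  congr 1
  rw [pow_mul]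
  push_cast
  norm_num

end Pool.Agent.Results.MP_173de9_an.LocalConstructions
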