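import Pool.Agent.V11201.MD.Disc

set_option autoImplicit false

/-!
# The star discrepancy of monotone constructions is `N ^ (-2 / d)` up to logarithms

A *monotone construction* of `N` points in `[0,1]^d` numbers the points by `n` digits (the digit `i`
has `b i ≥ 2` values, `N = b 1 ⋯ b n`) in such a way that each coordinate of the point is a monotone
function of the digits: for each `j` the `j`-th coordinate is nondecreasing in all digits, or
nonincreasing in all digits. Any dependence of this kind is allowed; the coordinates need not be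
digit expansions, and points may be repeated. Examples are the rectangular grids and the planar
Hammersley (van der Corput) sets, whose star discrepancy has the best possible order `log N / N`.

1. For all `d`: if the digits have at most `B` values, the star discrepancy of a monotone construction
   of `N` points in dimension `d` is at least `N ^ (-2 / d) / (16 B log₂ N) ^ 2`.
2. For all `d ≥ 2` and `k ≥ 1` there is a monotone construction of `N = 2 ^ (d k)` points, with binary
   digits, whose star discrepancy is at most `(2 k + 1) ^ (d - 1) N ^ (-2 / d)`.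

So for bounded digits the optimal order is `N ^ (-2 / d)` up to powers of `log N`. In the plane
monotone constructions are as good as any others up to logarithms; for `d ≥ 3` they lose a power of
`N` against the bounds `(log N) ^ (d - 1) / N` of the nonmonotone constructions (Halton, digital nets).

Proof of 1 (`Pool/Agent/V11201/MD`). Let the star discrepancy be `M`. Two coordinates `j ≠ k` are
nearly independent: the covariance of the indicator functions of `ξ_j < s` and `ξ_k < t` is at most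
`5 M`. On the other hand, by the inequality of Harris applied to the conditional covariances, for
monotone functions it is at least the covariance of the conditional expectations with respect to one
digit, which is at least `I I' / (2 B ^ 2)`, where `I`, `I'` are the influences of this digit. So each
digit has an influence larger than `θ = B √(10 M)` on at most one coordinate. The sets `V_j` of digits
with a large influence on the coordinate `j` are disjoint, so one of them, `V_j`, has at most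
`K = N ^ (1 / d)` values. Resampling the other digits one by one changes the interval of length
`1 / (2 K)` in which `ξ_j` is with probability at most `2 K n θ`. But the digits in `V_j` have only `K`
values and the `j`-th coordinate is nearly uniformly distributed, so `1 / 2 ≤ 3 K M + 2 K n θ`.
The upper bound uses the net of `Pool/Agent/V11160/DC/Net.lean`.
-/

open MeasureTheory

namespace Pool.Agent.Results.MP_173de9_an.MonotoneConstructions

/-- the local discrepancy `∏ x_j - (1/m) ∑_μ χ_{[0,x]}(ξ^μ)` -/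
noncomputable def localDisc {m d : ℕ} (ξ : Fin m → Fin d → ℝ) (x : Fin d → ℝ) : ℝ :=
  ∏ j, x j - (1 / (m:ℝ)) * ∑ μ : Fin m, (Set.Icc (0 : Fin d → ℝ) x).indicator (fun _ => (1:ℝ)) (ξ μ)

/-- the star discrepancy `D(ξ,m,d)_q` -/
noncomputable def starDisc (q : ENNReal) {m d : ℕ} (ξ : Fin m → Fin d → ℝ) : ENNReal :=
  eLpNorm (localDisc ξ) q (volume.restrict (Set.Icc (0 : Fin d → ℝ) 1))

/-- `ξ` is a monotone construction whose digits have at most `B` values: the points are numbered by
the tuples of digits `w i < b i`, `2 ≤ b i ≤ B`, and each coordinate is nondecreasing in all digits or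
nonincreasing in all digits. -/
def MonotoneConstruction (B : ℕ) {N d : ℕ} (ξ : Fin N → Fin d → ℝ) : Prop :=
  ∃ (n : ℕ) (b : Fin n → ℕ) (e : ((i : Fin n) → Fin (b i)) ≃ Fin N),
    (∀ i, 2 ≤ b i ∧ b i ≤ B) ∧
      ∀ j, Monotone (fun w => ξ (e w) j) ∨ Antitone (fun w => ξ (e w) j)

theorem lower {B N d : ℕ} (hd : 1 ≤ d) (ξ : Fin N → Fin d → ℝ)
    (h0 : ∀ μ j, 0 ≤ ξ μ j) (hξ : MonotoneConstruction B ξ) :
    ENNReal.ofReal ((N : ℝ) ^ (-(2 / d : ℝ)) / (16 * B * Real.logb 2 N) ^ 2) ≤ starDisc ⊤ ξ := by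
  obtain ⟨n, b, e, hb, hm⟩ := hξ
  have : ∀ i, NeZero (b i) := fun i => ⟨by have := (hb i).1; omega⟩
  by_cases ht : starDisc ⊤ ξ = ⊤
  · rw [ht]
    exact le_top
  rw [← ENNReal.ofReal_toReal ht]
  apply ENNReal.ofReal_le_ofReal
  obtain ⟨M, hM⟩ : ∃ M : ℝ, M = (starDisc ⊤ ξ).toReal := ⟨_, rfl⟩
  have hM0 : 0 ≤ M := by
    rw [hM]
    exact ENNReal.toReal_nonneg
  have hM1 : Pool.Agent.V11160.DC.starDisc ⊤ ξ ≤ ENNReal.ofReal M := by
    rw [hM, ENNReal.ofReal_toReal ht]
    exact le_refl _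
  rw [← hM]
  obtain ⟨K, hK1, hKd, hK⟩ := Pool.Agent.V11201.MD.main hd e ξ h0 hm (B := B)
    (fun i => by simpa using (hb i).2) hM0 hM1
  rw [Fintype.card_fin] at hK
  have hN2 : 2 ^ n ≤ N := by
    have h1 : Fintype.card ((i : Fin n) → Fin (b i)) = N := by
      rw [Fintype.card_congr e, Fintype.card_fin]
    rw [← h1, Fintype.card_pi]
    calc 2 ^ n = ∏ _i : Fin n, 2 := by simp
      _ ≤ ∏ i : Fin n, Fintype.card (Fin (b i)) :=
          Finset.prod_le_prod' fun i _ => by simpa using (hb i).1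
  rcases Nat.eq_zero_or_pos n with hn | hn
  · subst hn
    have h1 : N = 1 := by
      have h2 : Fintype.card ((i : Fin 0) → Fin (b i)) = N := by
        rw [Fintype.card_congr e, Fintype.card_fin]
      rw [← h2]
      simp
    rw [h1]
    simpa using hM0
  · have hB2 : 2 ≤ B := (hb ⟨0, hn⟩).1.trans (hb ⟨0, hn⟩).2
    have hN' : (0 : ℝ) < N := by
      have : 0 < N := lt_of_lt_of_le (by positivity) hN2
      exact_mod_cast this
    obtain ⟨L, hL⟩ : ∃ L : ℝ, L = Real.logb 2 N := ⟨_, rfl⟩
    have hnL : (n : ℝ) ≤ L := by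
      rw [hL, Real.le_logb_iff_rpow_le (by norm_num) hN', Real.rpow_natCast]
      exact_mod_cast hN2
    have hn1 : (1 : ℝ) ≤ n := by exact_mod_cast hn
    have hL1 : 1 ≤ L := hn1.trans hnL
    have hBr : (2 : ℝ) ≤ B := by exact_mod_cast hB2
    have hKr : (1 : ℝ) ≤ K := by exact_mod_cast hK1
    have hd' : (0 : ℝ) < d := by exact_mod_cast hd
    rw [← hL]
    by_contra hcon
    push Not at hcon
    have hKN : (K : ℝ) ^ 2 * (N : ℝ) ^ (-(2 / d : ℝ)) ≤ 1 := by
      have h1 : (K : ℝ) ^ 2 ≤ (N : ℝ) ^ (2 / d : ℝ) := by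
        have h2 : ((K : ℝ) ^ d) ^ (2 / d : ℝ) ≤ (N : ℝ) ^ (2 / d : ℝ) :=
          Real.rpow_le_rpow (by positivity) (by exact_mod_cast hKd) (by positivity)
        have h3 : ((K : ℝ) ^ d) ^ (2 / d : ℝ) = (K : ℝ) ^ 2 := by
          rw [← Real.rpow_natCast, ← Real.rpow_mul (by positivity)]
          rw [show (d : ℝ) * (2 / d) = ((2 : ℕ) : ℝ) by field_simp; norm_num]
          rw [Real.rpow_natCast]
        rwa [h3] at h2
      rw [Real.rpow_neg hN'.le]
      have h4 : 0 < (N : ℝ) ^ (2 / d : ℝ) := Real.rpow_pos_of_pos hN' _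
      rw [mul_inv_le_iff₀ h4]
      linarith
    obtain ⟨y, hy⟩ : ∃ y : ℝ, y = √M := ⟨_, rfl⟩
    have hy0 : 0 ≤ y := by
      rw [hy]
      exact Real.sqrt_nonneg _
    have hy2 : y ^ 2 = M := by
      rw [hy]
      exact Real.sq_sqrt hM0
    have hpos : 0 < 16 * (B : ℝ) * L := by positivity
    rw [lt_div_iff₀ (by positivity)] at hcon
    have h5 : (16 * B * L * K * y) ^ 2 < 1 := by
      calc (16 * (B : ℝ) * L * K * y) ^ 2 = K ^ 2 * (M * (16 * B * L) ^ 2) := by
            rw [← hy2]
            ring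
        _ < K ^ 2 * (N : ℝ) ^ (-(2 / d : ℝ)) :=
            mul_lt_mul_of_pos_left hcon (by positivity)
        _ ≤ 1 := hKN
    have h6 : 16 * (B : ℝ) * L * K * y < 1 :=
      lt_of_pow_lt_pow_left₀ 2 zero_le_one (by rw [one_pow]; exact h5)
    have h7 : √(10 * M) ≤ 16 / 5 * y := by
      rw [Real.sqrt_le_left (by positivity), mul_pow, hy2]
      linarith
    have h8 : 2 * (K : ℝ) * (n * (B * √(10 * M))) ≤ 2 / 5 := by
      have h9 : (n : ℝ) * (B * √(10 * M)) ≤ L * (B * (16 / 5 * y)) := by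
        apply mul_le_mul hnL _ (by positivity) (by positivity)
        exact mul_le_mul_of_nonneg_left h7 (by positivity)
      calc 2 * (K : ℝ) * (n * (B * √(10 * M))) ≤ 2 * K * (L * (B * (16 / 5 * y))) :=
            mul_le_mul_of_nonneg_left h9 (by positivity)
        _ = 2 / 5 * (16 * B * L * K * y) := by ring
        _ ≤ 2 / 5 := by linarith
    have h10 : (K : ℝ) * y ≤ 1 / 32 := by
      have h11 : 32 * ((K : ℝ) * y) ≤ 16 * B * L * K * y := by
        have h12 : 32 ≤ 16 * (B : ℝ) * L := by nlinarith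
        calc 32 * ((K : ℝ) * y) ≤ 16 * B * L * (K * y) :=
              mul_le_mul_of_nonneg_right h12 (by positivity)
          _ = _ := by ring
      linarith
    have h13 : y ≤ 1 / 32 := by
      have : y ≤ K * y := le_mul_of_one_le_left hy0 hKr
      linarith
    have h14 : 3 * (K : ℝ) * M ≤ 3 * (1 / 32) * (1 / 32) := by
      rw [← hy2]
      have : (K : ℝ) * y * y ≤ 1 / 32 * (1 / 32) := mul_le_mul h10 h13 hy0 (by norm_num)
      nlinarith
    linarith

theorem upper (e k' : ℕ) : ∃ ξ : Fin (2 ^ ((e + 2) * (k' + 1))) → Fin (e + 2) → ℝ,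
    (∀ μ j, 0 ≤ ξ μ j ∧ ξ μ j < 1) ∧ MonotoneConstruction 2 ξ ∧
      starDisc ⊤ ξ ≤ ENNReal.ofReal ((2 * (k' + 1) + 1) ^ (e + 1) / 4 ^ (k' + 1)) := by
  refine ⟨Pool.Agent.V11160.DC.pt (Pool.Agent.V11160.DC.blk e k'), fun μ j => ?_, ?_,
    Pool.Agent.V11160.DC.blk_disc e k'⟩
  · rw [Pool.Agent.V11160.DC.pt_eq]
    exact ⟨Pool.Agent.V11160.DC.val_nonneg _ _, Pool.Agent.V11160.DC.val_lt_one _ _⟩
  · refine ⟨(e + 2) * (k' + 1), fun _ => 2,
      (Equiv.arrowCongr finProdFinEquiv.symm finTwoEquiv).trans (Pool.Agent.V11160.DC.eqv e k'),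
      fun _ => ⟨le_refl _, le_refl _⟩, fun j => Or.inl ?_⟩
    intro w w' hw
    show Pool.Agent.V11160.DC.pt (Pool.Agent.V11160.DC.blk e k') _ j ≤
      Pool.Agent.V11160.DC.pt (Pool.Agent.V11160.DC.blk e k') _ j
    unfold Pool.Agent.V11160.DC.pt Pool.Agent.V11160.DC.blk
    apply Finset.sum_le_sum
    intro i _
    simp only [Equiv.trans_apply, Equiv.symm_apply_apply]
    obtain ⟨p, hp⟩ : ∃ p, p = Pool.Agent.V11160.DC.phi e k' j i := ⟨_, rfl⟩
    rw [← hp]
    have h1 : ∀ u : Fin ((e + 2) * (k' + 1)) → Fin 2,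
        (Equiv.arrowCongr (finProdFinEquiv (m := e + 2) (n := k' + 1)).symm finTwoEquiv) u p =
          finTwoEquiv (u (finProdFinEquiv p)) := fun u => rfl
    rw [h1, h1]
    have h2 := hw (finProdFinEquiv p)
    have h3 : ∀ a c : Fin 2, a ≤ c → finTwoEquiv a = true → finTwoEquiv c = true := by decide
    have h4 := h3 _ _ h2
    split_ifs with h5 h6
    · exact le_refl _
    · exact absurd (h4 h5) h6
    · positivity
    · exact le_refl _

/-- 1. A monotone construction of `N` points in `[0,1]^d` whose digits have at most `B` values has star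
discrepancy at least `N ^ (-2/d) / (16 B log₂ N) ^ 2`.
2. For `d ≥ 2`, `k ≥ 1` some monotone construction of `N = 2 ^ (d k)` points in `[0,1)^d` with binary
digits has star discrepancy at most `(2 k + 1) ^ (d - 1) N ^ (-2/d)`. -/
theorem result :
    (∀ (N d B : ℕ) (ξ : Fin N → Fin d → ℝ), 1 ≤ d → (∀ μ j, 0 ≤ ξ μ j ∧ ξ μ j ≤ 1) →
      MonotoneConstruction B ξ →
      ENNReal.ofReal ((N : ℝ) ^ (-(2 / d : ℝ)) / (16 * B * Real.logb 2 N) ^ 2) ≤ starDisc ⊤ ξ) ∧
    ∀ d k : ℕ, 2 ≤ d → 1 ≤ k → ∃ ξ : Fin (2 ^ (d * k)) → Fin d → ℝ,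
      (∀ μ j, 0 ≤ ξ μ j ∧ ξ μ j < 1) ∧ MonotoneConstruction 2 ξ ∧
      starDisc ⊤ ξ ≤
        ENNReal.ofReal ((2 * k + 1) ^ (d - 1) * ((2 ^ (d * k) : ℕ) : ℝ) ^ (-(2 / d : ℝ))) := by
  refine ⟨fun N d B ξ hd h0 hξ => lower hd ξ (fun μ j => (h0 μ j).1) hξ, ?_⟩
  intro d k hd hk
  obtain ⟨e, rfl⟩ : ∃ e, d = e + 2 := ⟨d - 2, by omega⟩
  obtain ⟨k', rfl⟩ : ∃ k', k = k' + 1 := ⟨k - 1, by omega⟩
  obtain ⟨ξ, h1, h2, h3⟩ := upper e k'
  refine ⟨ξ, h1, h2, h3.trans (le_of_eq ?_)⟩
  congr 1
  have h4 : ((2 ^ ((e + 2) * (k' + 1)) : ℕ) : ℝ) ^ (-(2 / (e + 2 : ℕ) : ℝ)) =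
      1 / 4 ^ (k' + 1) := by
    push_cast
    rw [← Real.rpow_natCast, ← Real.rpow_mul (by norm_num)]
    have h5 : (((e + 2) * (k' + 1) : ℕ) : ℝ) * -(2 / ((e : ℝ) + 2)) =
        -((2 * (k' + 1) : ℕ) : ℝ) := by
      push_cast
      have : (e : ℝ) + 2 ≠ 0 := by positivity
      field_simp
    rw [h5, Real.rpow_neg (by norm_num), Real.rpow_natCast, pow_mul]
    norm_num
  rw [h4]
  push_cast
  ring

end Pool.Agent.Results.MP_173de9_an.MonotoneConstructions
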